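import Pool.Agent.Helper17.SV.Stmts

set_option autoImplicit false

open Finset

namespace Pool.Agent.Helper17.SV

open Pool.Agent.Helper17.SO

theorem ev_nfix_eq {X : Type} [Fintype X] [DecidableEq X] (g : Equiv.Perm X) :
    nfix g = (univ.filter fun x : X => g x = x).card := by
  unfold nfix
  rw [Nat.card_eq_fintype_card, Fintype.card_subtype]

theorem ev_orb_bot {X : Type} (x : X) : orb (⊥ : Subgroup (Equiv.Perm X)) x = 1 := by
  unfold orb
  rw [Nat.card_eq_one_iff_unique]
  refine ⟨⟨fun a b => ?_⟩, ⟨⟨x, 1, Subgroup.one_mem _, rfl⟩⟩⟩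
  obtain ⟨a, ga, hga, ha⟩ := a
  obtain ⟨b, gb, hgb, hb⟩ := b
  rw [Subgroup.mem_bot] at hga hgb
  subst hga
  subst hgb
  apply Subtype.ext
  simp only [Equiv.Perm.one_apply] at ha hb
  show a = b
  rw [← ha, ← hb]

theorem ev_orb_pow {X : Type} [Finite X] (N : Subgroup (Equiv.Perm X)) (q : ℕ) (hq : q.Prime)
    (h : ∀ a ∈ N, ∃ r, a ^ q ^ r = 1) (x : X) : ∃ n : ℕ, orb N x = q ^ n := by
  haveI : Fact q.Prime := ⟨hq⟩
  have hp : IsPGroup q N := by
    intro a
    obtain ⟨r, hr⟩ := h a.1 a.2
    exact ⟨r, Subtype.ext (by simpa using hr)⟩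
  obtain ⟨n, hn⟩ := hp.card_orbit x
  refine ⟨n, ?_⟩
  rw [← hn]
  unfold orb
  apply Nat.card_congr
  refine Equiv.subtypeEquivRight fun y => ?_
  constructor
  · rintro ⟨g, hg, hy⟩
    exact ⟨⟨g, hg⟩, hy⟩
  · rintro ⟨g, hy⟩
    exact ⟨g.1, g.2, hy⟩

theorem ev_fibre_parity {X Y : Type} [Fintype X] [Fintype Y] [DecidableEq X] [DecidableEq Y]
    (π : X → Y) (S : Finset X) (T : Finset Y) (hST : ∀ x ∈ S, π x ∈ T)
    (hodd : ∀ y ∈ T, Odd (S.filter fun x => π x = y).card) (h : Odd S.card) : Odd T.card := by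
  have h1 : S.card = ∑ y ∈ T, (S.filter fun x => π x = y).card :=
    Finset.card_eq_sum_card_fiberwise (f := π) (s := S) (t := T) (fun x hx => hST x hx)
  rw [h1, Finset.odd_sum_iff_odd_card_odd] at h
  rwa [Finset.filter_true_of_mem hodd] at h

theorem ev_sum_parity {X Y : Type} [Fintype X] [Fintype Y] [DecidableEq Y]
    (π : X → Y) (A : Y → ℕ)
    (hodd : ∀ y, Odd (univ.filter fun x : X => π x = y).card) (h : Even (∑ y, A y)) :
    Even (∑ x, A (π x)) := by
  have h1 : ∑ x, A (π x) = ∑ y, (univ.filter fun x : X => π x = y).card * A y := by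
    rw [← Finset.sum_fiberwise (s := univ) (g := π) (f := fun x => A (π x))]
    apply Finset.sum_congr rfl
    intro y _
    rw [Finset.sum_congr rfl (g := fun _ => A y)]
    · rw [Finset.sum_const, smul_eq_mul]
    · intro x hx
      rw [(Finset.mem_filter.mp hx).2]
  rw [h1]
  choose d hd using hodd
  have h2 : ∑ y, (univ.filter fun x : X => π x = y).card * A y =
      2 * (∑ y, d y * A y) + ∑ y, A y := by
    rw [Finset.mul_sum, ← Finset.sum_add_distrib]
    apply Finset.sum_congr rfl
    intro y _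
    rw [hd y]
    ring
  rw [h2]
  exact (even_two_mul _).add h

theorem st_EV (hPL : ST_PL) (hFQ : ST_FQ) (hLIFT : ST_LIFT) (hNQ : ST_NQ) (hQM : ST_QM)
    (hCO : ST_CO) : ST_EV := by
  classical
  intro l hl hl2 X
  intro hX
  induction hn : Fintype.card X using Nat.strong_induction_on generalizing X with
  | _ n ih =>
  intro G hsol hodd hfix
  by_cases hG : G = ⊥
  · subst hG
    have : ∑ x : X, padicValNat l (orb (⊥ : Subgroup (Equiv.Perm X)) x) = 0 := by
      apply Finset.sum_eq_zero
      intro x _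
      rw [ev_orb_bot, padicValNat.one]
    rw [this]
    exact Even.zero
  haveI : Fact l.Prime := ⟨hl⟩
  haveI : Nontrivial G := (Subgroup.nontrivial_iff_ne_bot G).mpr hG
  haveI : Group.IsSolvable G := hsol
  haveI : Finite G := inferInstance
  obtain ⟨q, M, hq, hMn, hMp, hM1, hMc⟩ := hNQ G
  set N : Subgroup (Equiv.Perm X) := M.map G.subtype with hN
  have hNG : N ≤ G := Subgroup.map_subtype_le M
  have hNbot : N ≠ ⊥ := by
    intro h
    apply hM1
    rw [hN] at h
    exact (Subgroup.map_eq_bot_iff_of_injective M G.subtype_injective).mp h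
  have hnorm : ∀ g ∈ G, ∀ a ∈ N, g * a * g⁻¹ ∈ N := by
    intro g hg a ha
    obtain ⟨m, hm, rfl⟩ := Subgroup.mem_map.mp ha
    refine Subgroup.mem_map.mpr ⟨⟨g, hg⟩ * m * ⟨g, hg⟩⁻¹, hMn.conj_mem m hm ⟨g, hg⟩, ?_⟩
    simp
  have hNq : ∀ a ∈ N, ∃ r, a ^ q ^ r = 1 := by
    intro a ha
    obtain ⟨m, hm, rfl⟩ := Subgroup.mem_map.mp ha
    obtain ⟨r, hr⟩ := hMp ⟨m, hm⟩
    refine ⟨r, ?_⟩
    have h1 : m ^ q ^ r = 1 := by
      have := congrArg Subtype.val hr
      simpa using this
    rw [← map_pow, h1, map_one]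
  have hNc : ∀ a ∈ N, ∀ b ∈ N, a * b = b * a := by
    intro a ha b hb
    obtain ⟨m, hm, rfl⟩ := Subgroup.mem_map.mp ha
    obtain ⟨m', hm', rfl⟩ := Subgroup.mem_map.mp hb
    rw [← map_mul, ← map_mul, hMc m hm m' hm']
  obtain ⟨Y, hY, π, φ, hsurj, hcard, hker, hφ, horb⟩ := hQM X G N hNG hNbot hnorm
  have hoddG' : ∀ y, Odd (orb φ.range y) := by
    intro y
    obtain ⟨x, rfl⟩ := hsurj y
    have := hodd x
    rw [horb x, Nat.odd_mul] at this
    exact this.1
  have hoddN : ∀ x, Odd (orb N x) := by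
    intro x
    have := hodd x
    rw [horb x, Nat.odd_mul] at this
    exact this.2
  have hsol' : Group.IsSolvable φ.range :=
    solvable_of_surjective φ.rangeRestrict_surjective
  have hfix' : ∀ g' ∈ φ.range, (∃ r, g' ^ l ^ r = 1) → Odd (nfix g') := by
    intro g' hg' hr'
    obtain ⟨c, hc⟩ := hr'
    obtain ⟨g, r, hgr, hgg⟩ := hLIFT G (Equiv.Perm Y) φ l hl g' c hc hg'
    have hgr' : (g.1) ^ l ^ r = 1 := by
      have := congrArg Subtype.val hgr
      simpa using this
    have hcomm : ∀ x, g' (π x) = π (g.1 x) := by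
      intro x
      rw [← hgg]
      exact hφ g x
    by_cases hql : q = l
    · subst hql
      exact hCO X N g.1 q hl hl2 (hnorm g.1 g.2) hNq ⟨r, hgr'⟩ Y π g' hsurj hker hcomm
        (fun a ha h => hfix _ (G.mul_mem g.2 (hNG ha)) h)
    · have h1 : Odd (nfix g.1) := hfix g.1 g.2 ⟨r, hgr'⟩
      rw [ev_nfix_eq] at h1 ⊢
      refine ev_fibre_parity π (univ.filter fun x : X => g.1 x = x) _ ?_ ?_ h1
      · intro x hx
        have hx' := (Finset.mem_filter.mp hx).2
        exact Finset.mem_filter.mpr ⟨Finset.mem_univ _, by rw [hcomm, hx']⟩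
      · intro y hy
        have hy' := (Finset.mem_filter.mp hy).2
        obtain ⟨x, rfl⟩ := hsurj y
        have hex : ∃ a ∈ N, a x = g.1 x := by
          rw [← hker, ← hcomm, hy']
        have h2 := hFQ X N g.1 q l r hq hl hql hNq hNc (hnorm g.1 g.2) hgr' x hex (hoddN x)
        have h3 : Nat.card {y : X // (∃ a ∈ N, a x = y) ∧ g.1 y = y} =
            ((univ.filter fun x : X => g.1 x = x).filter fun z => π z = π x).card := by
          rw [Nat.card_eq_fintype_card, Fintype.card_subtype, Finset.filter_filter]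
          apply congrArg
          apply Finset.filter_congr
          intro z _
          rw [← hker x z]
          constructor
          · rintro ⟨a, b⟩
            exact ⟨b, a.symm⟩
          · rintro ⟨a, b⟩
            exact ⟨b.symm, a⟩
        rwa [h3] at h2
  have hIH : Even (∑ y : Y, padicValNat l (orb φ.range y)) :=
    ih (Fintype.card Y) (by omega) Y rfl φ.range hsol' hoddG' hfix'
  have hsplit : ∀ x, padicValNat l (orb G x) =
      padicValNat l (orb φ.range (π x)) + padicValNat l (orb N x) := by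
    intro x
    rw [horb x]
    exact padicValNat.mul (hoddG' _).pos.ne' (hoddN x).pos.ne'
  rw [Finset.sum_congr rfl (fun x _ => hsplit x), Finset.sum_add_distrib]
  apply Even.add
  · refine ev_sum_parity π (fun y => padicValNat l (orb φ.range y)) ?_ hIH
    intro y
    obtain ⟨x, rfl⟩ := hsurj y
    have h1 := hoddN x
    have h2 : orb N x = (univ.filter fun z : X => π z = π x).card := by
      unfold orb
      rw [Nat.card_eq_fintype_card, Fintype.card_subtype]
      apply congrArg
      apply Finset.filter_congr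
      intro z _
      rw [← hker x z]
      exact eq_comm
    rwa [h2] at h1
  · by_cases hql : q = l
    · subst hql
      refine hPL X N q hl hl2 hNq ?_
      intro g hg
      exact hfix g (hNG hg) (hNq g hg)
    · have : ∑ x : X, padicValNat l (orb N x) = 0 := by
        apply Finset.sum_eq_zero
        intro x _
        obtain ⟨k, hk⟩ := ev_orb_pow N q hq hNq x
        rw [hk]
        apply padicValNat.eq_zero_of_not_dvd
        intro hdvd
        have := (Nat.prime_dvd_prime_iff_eq hl hq).mp (hl.dvd_of_dvd_pow hdvd)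
        exact hql this.symm
      rw [this]
      exact Even.zero

end Pool.Agent.Helper17.SV
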