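import Pool.Agent.Helper17.SV.Stmts

set_option autoImplicit false

open Finset

namespace Pool.Agent.Helper17.SV

open Pool.Agent.Helper17.SO

theorem st_DESO (hI : Pool.Agent.Helper17.SO.ST_INC) (hS : Pool.Agent.Helper17.SO.ST_SCH)
    (hBR : Pool.Agent.Helper17.SO.ST_BRC) (hEVW : ST_EVW) (hC1 : ST_C1) : ST_DESO := by
  intro lam W v k B hlam hk hkv _ hD hcls
  obtain ⟨hlk, heq, hAA, hrow, hcol⟩ := hI v k lam B hlam hk hkv hD
  obtain ⟨n, hn⟩ : ∃ n, k = n + lam := ⟨k - lam, by omega⟩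
  have hn1 : 1 ≤ n := by omega
  have hkk : k * k = n + lam * v := by omega
  have hAA' : inc B * (inc B).transpose = (n : ℤ) • (1 : Matrix (Fin v) (Fin v) ℤ) +
      (lam : ℤ) • Matrix.of (fun _ _ => (1 : ℤ)) := by
    rw [hAA]
    have : ((k : ℤ) - lam) = (n : ℤ) := by rw [hn]; push_cast; ring
    rw [this]
  rcases Nat.even_or_odd v with hv | hv
  · left
    obtain ⟨r, hr⟩ := hS v k n lam (inc B) hn1 hk hkk hv (by omega) hAA'
    exact ⟨r, by rw [hn, hr]⟩
  · right
    refine ⟨(-1) ^ ((v - 1) / 2), neg_one_pow_eq_or ℤ _, v, n, hn, hn1, heq, hv, rfl, ?_, ?_⟩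
    · intro q p hq hp hWq hqv hpq hodd
      have hq2 : q ≠ 2 := by
        rintro rfl
        have h1 : v.factorization 2 = 0 := by
          apply Nat.factorization_eq_zero_of_not_dvd
          rcases hv with ⟨c, hc⟩
          omega
        rw [h1] at hqv
        simp at hqv
      have hex : ∃ (g : Equiv.Perm (Fin v)) (r : ℕ), g ^ q ^ r = 1 ∧ Even (nfix g) ∧ Aut B g := by
        rcases hcls with ⟨G, u, hsol, haut, hvW, horb⟩ | h
        · obtain ⟨g, hg, ⟨r, hr⟩, hev⟩ := hEVW v u W q G hv hsol horb hvW hq hWq hqv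
          exact ⟨g, r, hr, hev, haut g hg⟩
        · exact h q hq hWq hqv
      obtain ⟨g, r, hr, hev, haut⟩ := hex
      exact hC1 v k lam n B hlam hk hkv hD hv hn q r g hq hq2 hr hev haut p hp hpq hodd
    · intro p hp hp2 hpl hfac
      exact hBR v k n lam p (inc B) hn1 hk hv hkk hAA' hrow hcol hp hp2 hpl hfac

end Pool.Agent.Helper17.SV
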